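import Pool.Agent.U946.RS.Red

set_option autoImplicit false

/-! Coding by random subsets of a group. -/

namespace Pool.Agent.U946.RS

open MeasureTheory Filter Finset
open Pool.Agent.U946.BP (ind ru ru_singleton)
open scoped Topology ENNReal

universe u

/-- `t_1^(P_1(m)) ⋯ t_d^(P_d(m))` -/
noncomputable def word {G : Type u} [Group G] {d k : ℕ} (t : Fin d → G) (P : Fin d → MvPolynomial (Fin k) ℤ) (m : Fin k → ℕ) : G :=
  (List.ofFn (fun i : Fin d => t i ^ (MvPolynomial.eval (fun l => ((m l : ℕ) : ℤ)) (P i)))).prod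

lemma map_word {G H : Type*} [Group G] [Group H] (φ : G →* H) {d k : ℕ} (t : Fin d → G)
    (P : Fin d → MvPolynomial (Fin k) ℤ) (m : Fin k → ℕ) : φ (word t P m) = word (fun i => φ (t i)) P m := by
  unfold word
  rw [map_list_prod, List.map_ofFn]
  congr 2
  funext i
  simp only [Function.comp_apply, map_zpow]

lemma word_mem {G : Type*} [Group G] {H : Subgroup G} {d k : ℕ} {t : Fin d → G} (ht : ∀ i, t i ∈ H)
    (P : Fin d → MvPolynomial (Fin k) ℤ) (m : Fin k → ℕ) : word t P m ∈ H := by
  unfold word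
  refine Subgroup.list_prod_mem _ fun x hx => ?_
  obtain ⟨i, rfl⟩ := (List.mem_ofFn' _ _).1 hx
  exact Subgroup.zpow_mem _ (ht i) _

variable {Y : Type u} [MeasurableSpace Y] {ρ : Measure Y}

/-- the code of a point -/
noncomputable def code {G : Type*} [Group G] (Θ : G →* Equiv.Perm Y) (E : Set Y) (y : Y) (g : G) : Bool :=
  open Classical in if Θ g y ∈ E then true else false

omit [MeasurableSpace Y] in
lemma code_true {G : Type*} [Group G] (Θ : G →* Equiv.Perm Y) (E : Set Y) (y : Y) (g : G) :
    code Θ E y g = true ↔ Θ g y ∈ E := by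
  unfold code
  by_cases h : Θ g y ∈ E
  · rw [if_pos h]
    exact ⟨fun _ => h, fun _ => rfl⟩
  · rw [if_neg h]
    exact ⟨fun h' => absurd h' (by decide), fun h' => absurd h' h⟩

lemma code_meas {G : Type*} [Group G] {Θ : G →* Equiv.Perm Y} (hΘ : ∀ g, Measurable (fun y => Θ g y)) {E : Set Y}
    (hE : MeasurableSet E) : Measurable (code Θ E) := by
  classical
  refine measurable_pi_iff.2 fun g => ?_
  unfold code
  exact Measurable.ite ((hΘ g) hE) measurable_const measurable_const

/-- invariant random subsets are enough -/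
theorem of_random {G : Type} [Group G] [IsProbabilityMeasure ρ] {Θ : G →* Equiv.Perm Y}
    (hΘ : ∀ g, MeasurePreserving (fun y => Θ g y) ρ ρ) {E : Set Y} (hE : MeasurableSet E)
    {Q : (G → Bool) → Prop}
    (h : ∀ ν : Measure (G → Bool), IsProbabilityMeasure ν →
      (∀ g : G, MeasurePreserving (fun (R : G → Bool) h => R (h * g)) ν ν) → ∀ᵐ R ∂ν, Q R) :
    ∀ᵐ y ∂ρ, Q (code Θ E y) := by
  have hm := code_meas (fun g => (hΘ g).measurable) hE
  have hν : IsProbabilityMeasure (ρ.map (code Θ E)) := Measure.isProbabilityMeasure_map hm.aemeasurable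
  have hsm : ∀ g : G, Measurable (fun (R : G → Bool) h => R (h * g)) := fun g =>
    measurable_pi_iff.2 fun k => measurable_pi_apply (k * g)
  refine ae_of_ae_map hm.aemeasurable (h _ hν fun g => ⟨hsm g, ?_⟩)
  have hcs : (fun (R : G → Bool) h => R (h * g)) ∘ code Θ E = code Θ E ∘ fun y => Θ g y := by
    funext y k
    show code Θ E y (k * g) = code Θ E (Θ g y) k
    unfold code
    rw [map_mul]
    rfl
  rw [Measure.map_map (hsm g) hm, hcs, ← Measure.map_map hm (hΘ g).measurable, (hΘ g).map_eq]

lemma ru_mp (p : ℕ) [NeZero p] (a : ZMod p) : MeasurePreserving (fun r : ZMod p => r + a) (ru p) (ru p) := by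
  refine ⟨measurable_of_countable _, ?_⟩
  refine Measure.ext_of_singleton fun b => ?_
  rw [Measure.map_apply (measurable_of_countable _) (measurableSet_singleton b)]
  have : (fun r : ZMod p => r + a) ⁻¹' {b} = {b - a} := by
    ext r
    simp only [Set.mem_preimage, Set.mem_singleton_iff]
    exact eq_sub_iff_add_eq.symm
  rw [this, ru_singleton, ru_singleton]

variable {X : Type u} [MeasurableSpace X] {μ : Measure X}

/-- the action of the product group on `ℤ/p × X` -/
def act (p : ℕ) (H : Subgroup (Equiv.Perm X)) : Multiplicative (ZMod p) × H →* Equiv.Perm (ZMod p × X) where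
  toFun g :=
    { toFun := fun y => (y.1 + g.1.toAdd, (g.2 : Equiv.Perm X) y.2)
      invFun := fun y => (y.1 - g.1.toAdd, (g.2 : Equiv.Perm X)⁻¹ y.2)
      left_inv := fun y => by simp
      right_inv := fun y => by simp }
  map_one' := by
    apply Equiv.ext
    intro y
    simp
  map_mul' g h := by
    apply Equiv.ext
    intro y
    refine Prod.ext ?_ rfl
    show y.1 + (g.1 * h.1).toAdd = y.1 + h.1.toAdd + g.1.toAdd
    rw [toAdd_mul]
    ring

lemma act_mp (p : ℕ) [NeZero p] [SFinite μ] {H : Subgroup (Equiv.Perm X)}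
    (hH : ∀ σ ∈ H, MeasurePreserving (fun x => σ x) μ μ) (g : Multiplicative (ZMod p) × H) :
    MeasurePreserving (fun y => act p H g y) ((ru p).prod μ) ((ru p).prod μ) :=
  (ru_mp p g.1.toAdd).prod (hH g.2 g.2.2)

end Pool.Agent.U946.RS
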