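import Pool.Agent.U946.RS.Cod
import Pool.Agent.U946.BP.Code

set_option autoImplicit false

/-! Free nilpotent groups; one set from finitely many. -/

namespace Pool.Agent.U946.RS

open MeasureTheory Filter Finset
open Pool.Agent.U946.BP (ind ru ru_singleton)
open scoped Topology ENNReal

universe u

/-- the free nilpotent group of rank `d` and step `s` -/
abbrev FreeNil (d s : ℕ) : Type := FreeGroup (Fin d) ⧸ (⊤ : Subgroup (FreeGroup (Fin d))).lowerCentralSeries s

/-- its generators -/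
def gen (d s : ℕ) (i : Fin d) : FreeNil d s := QuotientGroup.mk (FreeGroup.of i)

lemma freeNil_nilpotent (d s : ℕ) : Group.IsNilpotent (FreeNil d s) := by
  rw [Subgroup.nilpotent_iff_lowerCentralSeries]
  refine ⟨s, ?_⟩
  have h1 := Subgroup.map_lowerCentralSeries (⊤ : Subgroup (FreeGroup (Fin d)))
    (QuotientGroup.mk' ((⊤ : Subgroup (FreeGroup (Fin d))).lowerCentralSeries s)) s
  rw [QuotientGroup.map_mk'_self] at h1
  rw [h1]
  congr 1
  rw [← MonoidHom.range_eq_map, MonoidHom.range_eq_top.2 (QuotientGroup.mk'_surjective _)]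

lemma exists_hom {K : Type u} [Group K] {d s : ℕ} (hs : (⊤ : Subgroup K).lowerCentralSeries s = ⊥) (t : Fin d → K) :
    ∃ π : FreeNil d s →* K, ∀ i, π (gen d s i) = t i := by
  have h : ∀ x ∈ (⊤ : Subgroup (FreeGroup (Fin d))).lowerCentralSeries s, FreeGroup.lift t x = 1 := by
    intro x hx
    have h1 : FreeGroup.lift t x ∈ ((⊤ : Subgroup (FreeGroup (Fin d))).lowerCentralSeries s).map (FreeGroup.lift t) :=
      Subgroup.mem_map_of_mem _ hx
    rw [Subgroup.map_lowerCentralSeries] at h1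
    have h2 := Subgroup.lowerCentralSeries_mono s (show Subgroup.map (FreeGroup.lift t) ⊤ ≤ ⊤ from le_top) h1
    simp only [hs, Subgroup.mem_bot] at h2
    exact h2
  refine ⟨QuotientGroup.lift _ (FreeGroup.lift t) h, fun i => ?_⟩
  unfold gen
  rw [QuotientGroup.lift_mk, FreeGroup.lift_apply_of]

variable {X : Type u} [MeasurableSpace X] {μ : Measure X}

/-- measure preserving in both directions -/
def autG (μ : Measure X) : Subgroup (Equiv.Perm X) where
  carrier := {σ | MeasurePreserving (fun x => σ x) μ μ ∧ MeasurePreserving (fun x => σ⁻¹ x) μ μ}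
  mul_mem' {σ ρ} h1 h2 := ⟨h1.1.comp h2.1, by
    have h := h2.2.comp h1.2
    have he : (fun x => (σ * ρ)⁻¹ x) = (fun x => ρ⁻¹ x) ∘ fun x => σ⁻¹ x := by
      funext x
      rw [mul_inv_rev]
      rfl
    rw [he]
    exact h⟩
  one_mem' := ⟨MeasurePreserving.id μ, MeasurePreserving.id μ⟩
  inv_mem' {σ} h := ⟨h.2, by
    simp only [inv_inv]
    exact h.1⟩

lemma mem_autG {σ : Equiv.Perm X} (h1 : Measurable σ) (h2 : Measurable σ.symm) (h3 : MeasurePreserving σ μ μ) :
    σ ∈ autG μ := by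
  let e : X ≃ᵐ X := { toEquiv := σ, measurable_toFun := h1, measurable_invFun := h2 }
  exact ⟨h3, MeasurePreserving.symm e h3⟩

/-- the generators of the product group -/
def tp {n d : ℕ} {H : Subgroup (Equiv.Perm X)} (T : Fin d → Equiv.Perm X) (hT : ∀ i, T i ∈ H) :
    Fin (d + 1) → Multiplicative (ZMod (n + 1)) × H :=
  Fin.cons (Multiplicative.ofAdd 1, 1) fun i => (1, ⟨T i, hT i⟩)

/-- the exponents -/
noncomputable def pp {n d k : ℕ} (P : Fin d → Fin n → MvPolynomial (Fin k) ℤ) :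
    Fin (d + 1) → Fin n → MvPolynomial (Fin k) ℤ :=
  Fin.cons (fun j => MvPolynomial.C ((j : ℕ) : ℤ)) P

lemma word_one {G : Type*} [Group G] {d k : ℕ} (P : Fin d → MvPolynomial (Fin k) ℤ) (m : Fin k → ℕ) :
    word (fun _ : Fin d => (1 : G)) P m = 1 := by
  unfold word
  refine List.prod_eq_one fun x hx => ?_
  obtain ⟨i, rfl⟩ := (List.mem_ofFn' _ _).1 hx
  exact one_zpow _

lemma word_cons {G : Type*} [Group G] {d k : ℕ} (t : Fin (d + 1) → G) (P : Fin (d + 1) → MvPolynomial (Fin k) ℤ)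
    (m : Fin k → ℕ) : word t P m = t 0 ^ (MvPolynomial.eval (fun l => ((m l : ℕ) : ℤ)) (P 0)) *
      word (fun i : Fin d => t i.succ) (fun i => P i.succ) m := by
  unfold word
  rw [List.ofFn_succ, List.prod_cons]

lemma word_fst {n d k : ℕ} {H : Subgroup (Equiv.Perm X)} (T : Fin d → Equiv.Perm X) (hT : ∀ i, T i ∈ H)
    (P : Fin d → Fin n → MvPolynomial (Fin k) ℤ) (j : Fin n) (m : Fin k → ℕ) :
    (word (tp (n := n) T hT) (fun i => pp P i j) m).1 = Multiplicative.ofAdd ((j : ℕ) : ZMod (n + 1)) := by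
  have h1 := map_word (MonoidHom.fst (Multiplicative (ZMod (n + 1))) H) (tp (n := n) T hT) (fun i => pp P i j) m
  rw [MonoidHom.coe_fst] at h1
  rw [h1, word_cons]
  have h2 : (fun i : Fin d => (tp (n := n) T hT i.succ).1) = fun _ => 1 := rfl
  have h3 : (tp (n := n) T hT 0).1 = Multiplicative.ofAdd 1 := rfl
  have h4 : pp P 0 j = MvPolynomial.C ((j : ℕ) : ℤ) := rfl
  rw [h2, word_one, mul_one, h3, h4, MvPolynomial.eval_C, ← ofAdd_zsmul, zsmul_one]
  push_cast
  rfl

lemma word_snd {n d k : ℕ} {H : Subgroup (Equiv.Perm X)} (T : Fin d → Equiv.Perm X) (hT : ∀ i, T i ∈ H)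
    (P : Fin d → Fin n → MvPolynomial (Fin k) ℤ) (j : Fin n) (m : Fin k → ℕ) :
    ((word (tp (n := n) T hT) (fun i => pp P i j) m).2 : Equiv.Perm X) = word T (fun i => P i j) m := by
  have h1 := map_word (H.subtype.comp (MonoidHom.snd (Multiplicative (ZMod (n + 1))) H)) (tp (n := n) T hT)
    (fun i => pp P i j) m
  have h0 : (H.subtype.comp (MonoidHom.snd (Multiplicative (ZMod (n + 1))) H))
      (word (tp (n := n) T hT) (fun i => pp P i j) m) =
      ((word (tp (n := n) T hT) (fun i => pp P i j) m).2 : Equiv.Perm X) := rfl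
  rw [← h0, h1, word_cons]
  have h3 : (H.subtype.comp (MonoidHom.snd (Multiplicative (ZMod (n + 1))) H)) (tp (n := n) T hT 0) = 1 := rfl
  rw [h3, one_zpow, one_mul]
  rfl

end Pool.Agent.U946.RS
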