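import Pool.Agent.U946.BP.Sets

set_option autoImplicit false

/-! Averages over boxes of products of functions along words: from functions to sets. -/

namespace Pool.Agent.U946.RS

open MeasureTheory Filter Finset
open Pool.Agent.U946.BP (ind ind_bd ind_meas all_of_ind)
open scoped Topology

universe u

variable {k : ℕ}

/-- the averages over boxes -/
noncomputable def bav (φ : (Fin k → ℕ) → ℝ) (M : Fin k → ℕ) : ℝ :=
  (∏ j, (M j : ℝ))⁻¹ * ∑ m ∈ Fintype.piFinset (fun j => Finset.range (M j)), φ m

/-- convergence of the averages over boxes -/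
def Bv (φ : (Fin k → ℕ) → ℝ) : Prop := ∃ L : ℝ, Tendsto (bav φ) atTop (𝓝 L)

lemma conv_of_approx {β : Type*} [Nonempty β] [SemilatticeSup β] {a : β → ℝ} (h : ∀ ε : ℝ, 0 < ε →
    ∃ b : β → ℝ, (∃ L, Tendsto b atTop (𝓝 L)) ∧ ∀ᶠ N in atTop, |a N - b N| ≤ ε) : ∃ L, Tendsto a atTop (𝓝 L) := by
  apply cauchySeq_tendsto_of_complete
  rw [Metric.cauchySeq_iff']
  intro ε hε
  obtain ⟨b, ⟨L, hL⟩, hb⟩ := h (ε / 5) (by positivity)
  have h1 := (Metric.tendsto_nhds.1 hL) (ε / 5) (by positivity)
  obtain ⟨K, hK⟩ := eventually_atTop.1 (h1.and hb)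
  refine ⟨K, fun n hn => ?_⟩
  have h2 := hK n hn
  have h3 := hK K le_rfl
  rw [Real.dist_eq] at h2 h3 ⊢
  have e : a n - a K = (a n - b n) + (b n - L) - (b K - L) - (a K - b K) := by ring
  rw [e]
  have := abs_sub ((a n - b n) + (b n - L) - (b K - L)) (a K - b K)
  have := abs_sub ((a n - b n) + (b n - L)) (b K - L)
  have := abs_add_le (a n - b n) (b n - L)
  linarith [h2.1, h2.2, h3.1, h3.2]

lemma Bv.add {φ ψ : (Fin k → ℕ) → ℝ} (h1 : Bv φ) (h2 : Bv ψ) : Bv fun n => φ n + ψ n := by
  obtain ⟨L, hL⟩ := h1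
  obtain ⟨M, hM⟩ := h2
  refine ⟨L + M, (hL.add hM).congr fun N => ?_⟩
  unfold bav
  rw [sum_add_distrib, mul_add]

lemma Bv.const_mul {φ : (Fin k → ℕ) → ℝ} (c : ℝ) (h1 : Bv φ) : Bv fun n => c * φ n := by
  obtain ⟨L, hL⟩ := h1
  refine ⟨c * L, (hL.const_mul c).congr fun N => ?_⟩
  unfold bav
  rw [← mul_sum]
  ring

lemma bav_bd {φ : (Fin k → ℕ) → ℝ} {C : ℝ} (hC : 0 ≤ C) (h : ∀ n, |φ n| ≤ C) (M : Fin k → ℕ) : |bav φ M| ≤ C := by
  unfold bav
  have hP : (0 : ℝ) ≤ ∏ j, (M j : ℝ) := prod_nonneg fun j _ => Nat.cast_nonneg _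
  rcases hP.eq_or_lt with h0 | h0
  · rw [← h0, inv_zero, zero_mul, abs_zero]
    exact hC
  · rw [abs_mul, abs_of_pos (inv_pos.2 h0), inv_mul_le_iff₀ h0]
    calc |∑ m ∈ Fintype.piFinset (fun j => Finset.range (M j)), φ m|
        ≤ ∑ m ∈ Fintype.piFinset (fun j => Finset.range (M j)), |φ m| := abs_sum_le_sum_abs _ _
      _ ≤ ∑ _m ∈ Fintype.piFinset (fun j => Finset.range (M j)), C := sum_le_sum fun n _ => h n
      _ = (∏ j, (M j : ℝ)) * C := by
        rw [sum_const, Fintype.card_piFinset, nsmul_eq_mul]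
        push_cast
        simp only [card_range]

lemma Bv.approx {φ : (Fin k → ℕ) → ℝ}
    (h : ∀ ε : ℝ, 0 < ε → ∃ ψ : (Fin k → ℕ) → ℝ, Bv ψ ∧ ∀ n, |φ n - ψ n| ≤ ε) : Bv φ := by
  refine conv_of_approx fun ε hε => ?_
  obtain ⟨ψ, hψ, h2⟩ := h ε hε
  refine ⟨bav ψ, hψ, Eventually.of_forall fun N => ?_⟩
  have h3 : bav φ N - bav ψ N = bav (fun n => φ n - ψ n) N := by
    unfold bav
    rw [← mul_sub, ← sum_sub_distrib]
  rw [h3]
  exact bav_bd hε.le h2 N

variable {X : Type u} [MeasurableSpace X] {μ : Measure X} {n : ℕ}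

omit [MeasurableSpace X] in
lemma upd (F : Fin n → X → ℝ) (S : Fin n → (Fin k → ℕ) → X → X) (i : Fin n) (f : X → ℝ) (x : X) (m : Fin k → ℕ) :
    ∏ j, (Function.update F i f) j (S j m x) = f (S i m x) * ∏ j ∈ univ.erase i, F j (S j m x) := by
  rw [← mul_prod_erase univ _ (mem_univ i)]
  rw [Function.update_self]
  congr 1
  exact prod_congr rfl fun j hj => by rw [Function.update_of_ne (ne_of_mem_erase hj)]

/-- sets are enough -/
theorem multi (S : Fin n → (Fin k → ℕ) → X → X)
    (h : ∀ A : Fin n → Set X, (∀ j, MeasurableSet (A j)) → ∀ᵐ x ∂μ, Bv fun m => ∏ j, ind (A j) (S j m x))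
    (F : Fin n → X → ℝ) (hF : ∀ j, Measurable (F j)) (hb : ∀ j, ∃ C : ℝ, ∀ x, |F j x| ≤ C) :
    ∀ᵐ x ∂μ, Bv fun m => ∏ j, F j (S j m x) := by
  have claim : ∀ s : Finset (Fin n), ∀ F : Fin n → X → ℝ, (∀ j, Measurable (F j)) →
      (∀ j, ∃ C : ℝ, ∀ x, |F j x| ≤ C) → (∀ j, j ∉ s → ∃ A, MeasurableSet A ∧ F j = ind A) →
      ∀ᵐ x ∂μ, Bv fun m => ∏ j, F j (S j m x) := by
    intro s
    induction s using Finset.induction_on with
    | empty =>
      intro F _ _ hA
      choose A hA1 hA2 using fun j => hA j (notMem_empty j)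
      have := h A hA1
      simp only [hA2]
      exact this
    | insert i s hi ih =>
      intro F hF hb hA
      have key : ∀ᵐ x ∂μ, Bv fun m => F i (S i m x) * ∏ j ∈ univ.erase i, F j (S j m x) := by
        obtain ⟨C, hC⟩ := hb i
        choose D hD using hb
        have hK : ∀ (x : X) (m : Fin k → ℕ), |∏ j ∈ univ.erase i, F j (S j m x)| ≤ ∏ j ∈ univ.erase i, |D j| := by
          intro x m
          rw [abs_prod]
          exact prod_le_prod (fun j _ => abs_nonneg _) fun j _ => (hD j _).trans (le_abs_self _)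
        have hK0 : 0 ≤ ∏ j ∈ univ.erase i, |D j| := prod_nonneg fun j _ => abs_nonneg _
        refine all_of_ind (fun f => ∀ᵐ x ∂μ, Bv fun m => f (S i m x) * ∏ j ∈ univ.erase i, F j (S j m x))
          ?_ ?_ ?_ ?_ (hF i) hC
        · intro A hAm
          have h1 := ih (Function.update F i (ind A)) (fun j => by
            by_cases hj : j = i
            · subst hj
              rw [Function.update_self]
              exact ind_meas hAm
            · rw [Function.update_of_ne hj]
              exact hF j) (fun j => by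
            by_cases hj : j = i
            · subst hj
              rw [Function.update_self]
              exact ⟨1, ind_bd A⟩
            · rw [Function.update_of_ne hj]
              exact ⟨D j, hD j⟩) (fun j hj => by
            by_cases hji : j = i
            · subst hji
              rw [Function.update_self]
              exact ⟨A, hAm, rfl⟩
            · rw [Function.update_of_ne hji]
              exact hA j fun hc => by
                rcases mem_insert.1 hc with h | h
                · exact hji h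
                · exact hj h)
          simp only [upd] at h1
          exact h1
        · intro f g hf hg
          filter_upwards [hf, hg] with x h1 h2
          have h3 := h1.add h2
          simp only [add_mul]
          exact h3
        · intro c f hf
          filter_upwards [hf] with x h1
          have h3 := h1.const_mul c
          simp only [mul_assoc]
          exact h3
        · intro f _ h
          choose g hg hfg using fun j : ℕ => h (1 / ((j : ℝ) + 1)) (by positivity)
          filter_upwards [ae_all_iff.2 hg] with x hx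
          refine Bv.approx fun ε hε => ?_
          obtain ⟨j, hj⟩ := exists_nat_one_div_lt (show 0 < ε / (∏ j ∈ univ.erase i, |D j| + 1) by positivity)
          refine ⟨_, hx j, fun m => ?_⟩
          rw [← sub_mul, abs_mul]
          calc |f (S i m x) - g j (S i m x)| * |∏ j ∈ univ.erase i, F j (S j m x)|
              ≤ ε / (∏ j ∈ univ.erase i, |D j| + 1) * (∏ j ∈ univ.erase i, |D j| + 1) :=
                mul_le_mul ((hfg j _).trans hj.le) ((hK x m).trans (by linarith)) (abs_nonneg _) (by positivity)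
            _ = ε := by field_simp
      filter_upwards [key] with x hx
      have h2 : (fun m => ∏ j, F j (S j m x)) = fun m => F i (S i m x) * ∏ j ∈ univ.erase i, F j (S j m x) := by
        funext m
        rw [← mul_prod_erase univ _ (mem_univ i)]
      rw [h2]
      exact hx
  exact claim univ F hF hb fun j hj => absurd (mem_univ j) hj

end Pool.Agent.U946.RS
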